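import Mathlib
import Pool.Agent.H21.MealyDefs

namespace Pool.Agent.Results.MP_965ec6_al.Larger

open Pool.Agent.H21.Mealy
open scoped commutatorElement

abbrev L := Option (Fin 3)

def s : Equiv.Perm (Fin 3) := Equiv.swap 0 1
def t : Equiv.Perm (Fin 3) := Equiv.swap 0 1 * Equiv.swap 1 2
def c : Fin 4 → Equiv.Perm (Fin 3) := ![s, t, 1, 1]

def M : Aut (Fin 4) L where
  δ := fun i => if i = none then ![1, 2, 0, 3] else ![1, 0, 3, 2]
  ρ := fun x => Option.map (c x)

def st : Fin 12 → Fin 4 → Fin 4 := ![![0,1,2,3], ![1,2,0,3], ![1,0,3,2], ![2,0,1,3], ![0,3,1,2], ![2,1,3,0], ![3,1,0,2], ![1,3,2,0], ![0,2,3,1], ![3,0,2,1], ![3,2,1,0], ![2,3,0,1]]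
def nx (i : L) : Fin 12 → Fin 12 := if i = none then ![1,3,5,0,7,8,10,11,2,6,9,4] else ![2,4,0,6,1,9,3,8,7,5,11,10]
def wd : Fin 12 → List L := ![[], [none], [some 0], [none,none], [none,some 0], [some 0,none], [none,none,some 0], [none,some 0,none], [some 0,none,none], [some 0,none,some 0], [none,none,some 0,none], [none,some 0,none,none]]

abbrev H := Fin 12 → Equiv.Perm (Fin 3)

def run (F : H) : Fin 12 → List L → List L
  | _, [] => []
  | σ, x :: w => x.map (F σ) :: run F (nx x σ) w

lemma nx_map (x : L) (f : Fin 3 → Fin 3) : nx (x.map f) = nx x := by cases x <;> rfl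

lemma run_mul (F F' : H) : ∀ (w : List L) (σ), run (F * F') σ w = run F σ (run F' σ w)
  | [], _ => rfl
  | x :: w, σ => by simp [run, run_mul F F' w, nx_map]

lemma run_one : ∀ (w : List L) (σ), run 1 σ w = w
  | [], _ => rfl
  | x :: w, σ => by simp [run, run_one w]

def Φ : H →* Equiv.Perm (List L) :=
  MonoidHom.toHomPerm
    { toFun := fun F => run F 0
      map_one' := funext fun w => run_one w 0
      map_mul' := fun F F' => funext fun w => run_mul F F' w 0 }

lemma run_app (F : H) (u : List L) : ∀ (w : List L) (σ),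
    run F σ (w ++ u) = run F σ w ++ run F (w.foldl (fun a x => nx x a) σ) u
  | [], _ => rfl
  | x :: w, σ => by simp [run, run_app F u w]

lemma Φ_inj : Function.Injective Φ := by
  refine (injective_iff_map_eq_one Φ).2 fun F hF => funext fun i => Equiv.ext fun x => ?_
  have h : ∀ w, run F 0 w = w := fun w => congrArg (fun f : Equiv.Perm (List L) => f w) hF
  have h1 := run_app F [some x] (wd i) 0
  rw [h, h, (by decide : ∀ i, (wd i).foldl (fun a x => nx x a) 0 = i)] at h1
  simpa [run] using h1.symm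

def F (r : Fin 4) : H := fun σ => c (st σ r)

lemma run_F (r : Fin 4) : ∀ (w : List L) (σ), run (F r) σ w = M.act (st σ r) w
  | [], _ => rfl
  | x :: w, σ => by
    rw [run, run_F r w, (by decide : ∀ x σ r, st (nx x σ) r = M.δ x (st σ r))]
    rfl

lemma big : 24 ^ 4 < Nat.card (Subgroup.closure (Set.range F)) := by
  have h1 : ∀ i : Fin 12, Pi.mulSingle i t ∈ Subgroup.closure (Set.range F) := fun i => by
    obtain ⟨r, r', h⟩ := (by decide +kernel :
      ∀ i : Fin 12, ∃ r r', ⁅F r, ⁅F r, F r'⁆⁆ = Pi.mulSingle i t) i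
    have hr : ∀ r, F r ∈ Subgroup.closure (Set.range F) := fun r =>
      Subgroup.subset_closure ⟨r, rfl⟩
    rw [← h]
    simp only [commutatorElement_def]
    aesop
  let f : (Fin 12 → Fin 3) → Subgroup.closure (Set.range F) := fun a =>
    ⟨fun i => t ^ (a i : ℕ), Subgroup.pi_mem_of_mulSingle_mem _ fun i => by
      rw [Pi.mulSingle_pow]
      exact pow_mem (h1 i) _⟩
  have hf : Function.Injective f := fun a b h => funext fun i =>
    (by decide : ∀ a b : Fin 3, t ^ (a : ℕ) = t ^ (b : ℕ) → a = b) _ _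
      (congrFun (congrArg Subtype.val h) i)
  have := Nat.card_le_card_of_injective f hf
  simp only [Nat.card_eq_fintype_card, Fintype.card_pi, Fintype.card_fin, Finset.prod_const,
    Finset.card_univ] at this ⊢
  omega

theorem result : ∃ (A S : Type) (_ : Fintype A) (_ : Fintype S) (M : Aut A S),
    1 ≤ Fintype.card A ∧ 1 ≤ Fintype.card S ∧ M.Bireversible ∧ Finite M.group ∧
      (Fintype.card S).factorial ^ Fintype.card A < Nat.card M.group := by
  have hG : M.group = (Subgroup.closure (Set.range F)).map Φ := by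
    rw [MonoidHom.map_closure, Aut.group]
    congr 1
    ext g
    constructor
    · rintro ⟨x, hx⟩
      exact ⟨F x, ⟨x, rfl⟩, Equiv.ext fun w => (run_F x w 0).trans
        (by rw [hx, (by decide : ∀ x, st 0 x = x)])⟩
    · rintro ⟨_, ⟨x, rfl⟩, rfl⟩
      exact ⟨x, fun w => (run_F x w 0).trans (by rw [(by decide : ∀ x, st 0 x = x)])⟩
  have e := (Subgroup.closure (Set.range F)).equivMapOfInjective Φ Φ_inj
  refine ⟨Fin 4, L, inferInstance, inferInstance, M, by simp, by simp,
    ⟨by decide, by decide, fun j d hd => ?_⟩, ?_, ?_⟩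
  · have : d = M.δ j := funext fun x => by
      obtain ⟨i, hi⟩ := (by decide : ∀ x j, ∃ i, M.ρ x i = j) x j
      rw [hd x i hi, ← hi]
      cases i <;> rfl
    rw [this]
    exact (by decide : ∀ j, Function.Bijective (M.δ j)) j
  · rw [hG]
    exact Finite.of_equiv _ e.toEquiv
  · rw [hG, ← Nat.card_congr e.toEquiv]
    exact big

end Pool.Agent.Results.MP_965ec6_al.Larger
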